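import Mathlib

namespace Pool.Agent.H.MP_7dd24e_an

open Set Metric MeasureTheory Filter Topology
open scoped ENNReal NNReal RealInnerProductSpace

abbrev E := EuclideanSpace ℝ (Fin 3)

def Bd (ν : E → ℝ) : Prop :=
  Measurable ν ∧ ∃ B R : ℝ, 0 < B ∧ 0 < R ∧ (∀ y, |ν y| ≤ B) ∧ ∀ y, R ≤ ‖y‖ → ν y = 0

noncomputable def P (ν : E → ℝ) (x : E) : ℝ := ∫ y, ‖x - y‖⁻¹ * ν y

noncomputable def ke (ε : ℝ) (z : E) : ℝ := (√(‖z‖ ^ 2 + ε ^ 2))⁻¹

noncomputable def Pe (ε : ℝ) (ν : E → ℝ) (x : E) : ℝ := ∫ y, ke ε (x - y) * ν y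

lemma kint (n : ℕ) (hn : n < 3) (x : E) (r : ℝ) :
    IntegrableOn (fun y : E => ‖x - y‖⁻¹ ^ n) (ball x r) := by
  have h : IntegrableOn (fun y : E => ‖y‖⁻¹ ^ n) (ball 0 r) :=
    integrableOn_ball_of_norm_le_rpow (by simp) (C := 1) (α := n) (by simpa using hn)
      (Eventually.of_forall fun y => by
        rw [Real.rpow_neg (norm_nonneg _), Real.rpow_natCast]; simp)
      (measurable_norm.inv.pow_const n).aestronglyMeasurable
  rw [← integrable_indicator_iff measurableSet_ball] at h ⊢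
  refine (h.comp_sub_left x).congr (Eventually.of_forall fun y => ?_)
  by_cases hy : y ∈ ball x r
  · have : x - y ∈ ball (0 : E) r := by rwa [mem_ball_zero_iff, ← dist_eq_norm, dist_comm]
    simp only [indicator_of_mem hy, indicator_of_mem this]
  · have : x - y ∉ ball (0 : E) r := by rwa [mem_ball_zero_iff, ← dist_eq_norm, dist_comm]
    simp only [indicator_of_notMem hy, indicator_of_notMem this]

lemma Bd.mul {ν f : E → ℝ} (h : Bd ν) (hf : ∀ r, IntegrableOn f (ball 0 r)) :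
    Integrable fun y => f y * ν y := by
  obtain ⟨hm, B, R, -, -, h1, h2⟩ := h
  have h3 : IntegrableOn (fun y => f y * ν y) (ball 0 R) :=
    (hf R).mul_bdd hm.aestronglyMeasurable (Eventually.of_forall h1)
  exact h3.integrable_of_forall_notMem_eq_zero fun y hy => by
    rw [h2 y (by simpa using hy), mul_zero]

lemma cint {f : E → ℝ} (hf : Continuous f) (r : ℝ) : IntegrableOn f (ball 0 r) :=
  (hf.continuousOn.integrableOn_compact (isCompact_closedBall 0 r)).mono_set ball_subset_closedBall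

lemma Bd.int {ν : E → ℝ} (h : Bd ν) : Integrable ν := by
  simpa using h.mul (cint continuous_one)

lemma kint' (n : ℕ) (hn : n < 3) (x : E) (r : ℝ) :
    IntegrableOn (fun y : E => ‖x - y‖⁻¹ ^ n) (ball 0 r) :=
  (kint n hn x (r + ‖x‖)).mono_set (ball_subset_ball' (by simp))

lemma Bd.kint {ν : E → ℝ} (h : Bd ν) (x : E) : Integrable fun y => ‖x - y‖⁻¹ * ν y :=
  h.mul fun r => by simpa using kint' 1 (by norm_num) x r

lemma ke_cont {ε : ℝ} (hε : 0 < ε) : Continuous (ke ε) :=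
  Continuous.inv₀ (by fun_prop) fun z => (Real.sqrt_pos.2 (by positivity)).ne'

lemma le_rt {ε : ℝ} (hε : 0 < ε) (z : E) : ε ≤ √(‖z‖ ^ 2 + ε ^ 2) ∧ ‖z‖ ≤ √(‖z‖ ^ 2 + ε ^ 2) ∧
    √(‖z‖ ^ 2 + ε ^ 2) ≤ ‖z‖ + ε :=
  ⟨Real.le_sqrt_of_sq_le (by nlinarith [sq_nonneg ‖z‖]), Real.le_sqrt_of_sq_le (by nlinarith),
    Real.sqrt_le_iff.2 ⟨by positivity, by nlinarith [norm_nonneg z]⟩⟩

lemma Bd.keint {ν : E → ℝ} (h : Bd ν) {ε : ℝ} (hε : 0 < ε) (x : E) :
    Integrable fun y => ke ε (x - y) * ν y :=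
  h.mul (cint ((ke_cont hε).comp (by fun_prop)))

lemma Bd.lin {ν τ : E → ℝ} (h : Bd ν) (h' : Bd τ) (a b : ℝ) : Bd fun y => a * ν y + b * τ y := by
  obtain ⟨hm, B, R, B0, R0, h1, h2⟩ := h
  obtain ⟨hm', B', R', B0', R0', h1', h2'⟩ := h'
  refine ⟨by fun_prop, |a| * B + |b| * B' + 1, R + R', by positivity, by positivity, fun y => ?_,
    fun y hy => by simp [h2 y (by linarith), h2' y (by linarith)]⟩
  refine (abs_add_le _ _).trans ?_
  rw [abs_mul, abs_mul]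
  linarith [mul_le_mul_of_nonneg_left (h1 y) (abs_nonneg a),
    mul_le_mul_of_nonneg_left (h1' y) (abs_nonneg b)]

lemma P_lin {ν τ : E → ℝ} (h : Bd ν) (h' : Bd τ) (a b : ℝ) (x : E) :
    P (fun y => a * ν y + b * τ y) x = a * P ν x + b * P τ x := by
  simp only [P]
  rw [← integral_const_mul, ← integral_const_mul,
    ← integral_add ((h.kint x).const_mul _) ((h'.kint x).const_mul _)]
  congr 1; ext y; ring

lemma Bd.abs {ν : E → ℝ} (h : Bd ν) : Bd fun y => |ν y| := by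
  obtain ⟨hm, B, R, B0, R0, h1, h2⟩ := h
  exact ⟨by fun_prop, B, R, B0, R0, fun y => by simpa using h1 y, fun y hy => by simp [h2 y hy]⟩

lemma Bd.of_le {ν τ : E → ℝ} (h : Bd ν) (hm : Measurable τ) (h0 : ∀ y, |τ y| ≤ ν y) : Bd τ := by
  obtain ⟨-, B, R, B0, R0, h1, h2⟩ := h
  exact ⟨hm, B, R, B0, R0, fun y => (h0 y).trans ((le_abs_self _).trans (h1 y)),
    fun y hy => abs_nonpos_iff.1 ((h0 y).trans_eq (h2 y hy))⟩

lemma ind {s : Set E} (hs : MeasurableSet s) (hb : Bornology.IsBounded s) :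
    Bd (s.indicator fun _ => (1 : ℝ)) := by
  obtain ⟨R, R0, hR⟩ := hb.subset_ball_lt 0 (0 : E)
  refine ⟨measurable_const.indicator hs, 1, R, one_pos, R0, fun y => ?_, fun y hy =>
    indicator_of_notMem (fun h => absurd (mem_ball_zero_iff.1 (hR h)) (not_lt.2 hy)) _⟩
  by_cases hy : y ∈ s <;> simp [hy]

lemma P_mono {ν τ : E → ℝ} (h : Bd ν) (h' : Bd τ) (hle : ∀ᵐ y, ν y ≤ τ y) (x : E) : P ν x ≤ P τ x :=
  integral_mono_ae (h.kint x) (h'.kint x) (hle.mono fun y hy => by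
    exact mul_le_mul_of_nonneg_left hy (by positivity))

lemma approx {ν : E → ℝ} (h : Bd ν) {η : ℝ} (hη : 0 < η) :
    ∀ᶠ ε in 𝓝[>] (0 : ℝ), ∀ x, |P ν x - Pe ε ν x| ≤ η := by
  have hi := h.abs.int
  have hb := h
  obtain ⟨hm, B, R, B0, R0, h1, h2⟩ := h
  have k1 : IntegrableOn (fun z : E => ‖z‖⁻¹) (ball 0 1) := by simpa using kint 1 (by norm_num) 0 1
  have l1 : Tendsto (fun ε : ℝ => ∫ z in ball (0 : E) 1, |‖z‖⁻¹ - ke ε z|) (𝓝[>] 0)
      (𝓝 (∫ z in ball (0 : E) 1, (0 : ℝ))) := by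
    have h0 : ∀ᵐ z ∂(volume.restrict (ball (0 : E) 1)), z ≠ 0 :=
      ae_restrict_of_ae (by simp [ae_iff])
    refine tendsto_integral_filter_of_dominated_convergence (fun z => ‖z‖⁻¹) ?_ ?_ k1 ?_
    · filter_upwards [self_mem_nhdsWithin] with ε hε
      exact (measurable_norm.inv.sub (ke_cont hε).measurable).abs.aestronglyMeasurable
    · filter_upwards [self_mem_nhdsWithin] with ε hε
      filter_upwards [h0] with z hz
      have h3 : ke ε z ≤ ‖z‖⁻¹ := inv_anti₀ (norm_pos_iff.2 hz) (le_rt hε z).2.1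
      have h4 : 0 ≤ ke ε z := by unfold ke; positivity
      rw [Real.norm_eq_abs, abs_abs, abs_of_nonneg (by linarith)]; linarith
    · filter_upwards [h0] with z hz
      have h3 : ContinuousAt (fun ε : ℝ => |‖z‖⁻¹ - ke ε z|) 0 := by
        unfold ke
        refine (continuousAt_const.sub (ContinuousAt.inv₀ (by fun_prop) ?_)).abs
        simpa using hz
      simpa [ke] using h3.tendsto.mono_left nhdsWithin_le_nhds
  have l2 : Tendsto (fun ε : ℝ => B * (∫ z in ball (0 : E) 1, |‖z‖⁻¹ - ke ε z|) + ε * ∫ y, |ν y|)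
      (𝓝[>] 0) (𝓝 (B * (∫ z in ball (0 : E) 1, (0 : ℝ)) + 0 * ∫ y, |ν y|)) :=
    (l1.const_mul B).add ((tendsto_id.mono_left nhdsWithin_le_nhds).mul_const _)
  simp only [integral_zero, mul_zero, zero_mul, add_zero] at l2
  filter_upwards [l2.eventually (ge_mem_nhds hη), self_mem_nhdsWithin] with ε h3 hε x
  refine le_trans ?_ h3
  have i1 : Integrable ((ball (0 : E) 1).indicator fun z => |‖z‖⁻¹ - ke ε z|) :=
    (integrable_indicator_iff measurableSet_ball).2 (k1.sub (cint (ke_cont hε) 1)).abs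
  rw [P, Pe, ← integral_sub (hb.kint x) (hb.keint hε x), ← integral_indicator measurableSet_ball,
    ← integral_sub_left_eq_self (indicator _ _) volume x, ← integral_const_mul, ← integral_const_mul,
    ← integral_add ((i1.comp_sub_left x).const_mul _) (hi.const_mul _), ← Real.norm_eq_abs]
  refine norm_integral_le_of_norm_le (((i1.comp_sub_left x).const_mul _).add (hi.const_mul _))
    (Eventually.of_forall fun y => ?_)
  rw [← sub_mul, Real.norm_eq_abs, abs_mul]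
  have hε' : 0 < ε := hε
  by_cases hy : x - y ∈ ball (0 : E) 1
  · rw [indicator_of_mem hy, mul_comm]
    exact le_add_of_le_of_nonneg (mul_le_mul_of_nonneg_right (h1 y) (abs_nonneg _)) (by positivity)
  · rw [indicator_of_notMem hy, mul_zero, zero_add]
    refine mul_le_mul_of_nonneg_right ?_ (abs_nonneg _)
    have h4 : 1 ≤ ‖x - y‖ := by simpa using hy
    obtain ⟨-, h5, h6⟩ := le_rt hε' (x - y)
    unfold ke
    generalize √(‖x - y‖ ^ 2 + ε ^ 2) = s at *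
    generalize ‖x - y‖ = r at *
    rw [abs_of_nonneg (sub_nonneg.2 (inv_anti₀ (by linarith) h5)), inv_sub_inv (by linarith) (by linarith),
      div_le_iff₀ (by nlinarith)]
    nlinarith [mul_le_mul h4 (h4.trans h5) zero_le_one (by linarith)]

lemma Pe_cont {ν : E → ℝ} (h : Bd ν) {ε : ℝ} (hε : 0 < ε) : Continuous (Pe ε ν) := by
  refine continuous_of_dominated (bound := fun y => ε⁻¹ * |ν y|)
    (fun x => (h.keint hε x).aestronglyMeasurable) (fun x => Eventually.of_forall fun y => ?_)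
    (h.abs.int.const_mul _) (Eventually.of_forall fun y => ?_)
  · rw [norm_mul, Real.norm_eq_abs, Real.norm_eq_abs, abs_of_nonneg (by unfold ke; positivity)]
    exact mul_le_mul_of_nonneg_right (inv_anti₀ hε (le_rt hε _).1) (abs_nonneg _)
  · exact ((ke_cont hε).comp (by fun_prop)).mul continuous_const

lemma Bd.cont {ν : E → ℝ} (h : Bd ν) : Continuous (P ν) := by
  refine continuous_of_uniform_approx_of_continuous fun u hu => ?_
  obtain ⟨η, hη, H⟩ := Metric.mem_uniformity_dist.1 hu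
  obtain ⟨ε, h1, h2⟩ := ((approx h (half_pos hη)).and self_mem_nhdsWithin).exists
  exact ⟨_, Pe_cont h h2, fun y => H ((h1 y).trans_lt (half_lt_self hη))⟩

lemma Bd.decay {ν : E → ℝ} (h : Bd ν) {m : ℝ} (hm : 0 < m) : ∃ R, ∀ x, R ≤ ‖x‖ → |P ν x| ≤ m := by
  have hi := h.abs.int
  obtain ⟨-, B, R, B0, R0, h1, h2⟩ := h
  have h0 : 0 ≤ ∫ y, |ν y| := integral_nonneg fun _ => abs_nonneg _
  refine ⟨R + ((∫ y, |ν y|) + 1) / m, fun x hx => ?_⟩
  refine (norm_integral_le_of_norm_le (f := fun y => ‖x - y‖⁻¹ * ν y)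
    (hi.const_mul (m / ((∫ y, |ν y|) + 1))) (Eventually.of_forall fun y => ?_)).trans ?_
  · rcases le_or_gt R ‖y‖ with h | h
    · simp [h2 y h]
    · rw [norm_mul, norm_inv, norm_norm, Real.norm_eq_abs, ← inv_div]
      gcongr
      linarith [norm_sub_norm_le x y]
  · rw [integral_const_mul, div_mul_eq_mul_div, div_le_iff₀ (by positivity)]
    nlinarith

lemma tay {r s ε h : ℝ} (hε : 0 < ε) (hr : ε ≤ r) (hs : ε ≤ s) (hh : 0 < h) (hhε : h ≤ ε)
    (h1 : |r - s| ≤ h) :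
    s⁻¹ ≤ r⁻¹ - (s ^ 2 - r ^ 2) / (2 * r ^ 3) + 3 * (s ^ 2 - r ^ 2) ^ 2 / (8 * r ^ 5) + 5 * h ^ 3 / ε ^ 4 ∧
    r⁻¹ - (s ^ 2 - r ^ 2) / (2 * r ^ 3) + 3 * (s ^ 2 - r ^ 2) ^ 2 / (8 * r ^ 5) - 5 * h ^ 3 / ε ^ 4 ≤ s⁻¹ := by
  have r0 : 0 < r := hε.trans_le hr
  have s0 : 0 < s := hε.trans_le hs
  have h2 : s⁻¹ - (r⁻¹ - (s ^ 2 - r ^ 2) / (2 * r ^ 3) + 3 * (s ^ 2 - r ^ 2) ^ 2 / (8 * r ^ 5)) =
      (r - s) ^ 3 * ((8 * r ^ 2 + 9 * r * s + 3 * s ^ 2) / (8 * r ^ 5 * s)) := by field_simp; ring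
  have h3 : s ≤ 2 * r := by linarith [(abs_le.1 h1).1]
  have h4 : (8 * r ^ 2 + 9 * r * s + 3 * s ^ 2) / (8 * r ^ 5 * s) ≤ 5 / ε ^ 4 := by
    rw [div_le_div_iff₀ (by positivity) (by positivity)]
    calc _ ≤ (40 * r ^ 2) * (r ^ 3 * s) := by
          refine mul_le_mul (by nlinarith) ?_ (by positivity) (by positivity)
          rw [pow_succ]; gcongr
      _ = _ := by ring
  have h5 : |(r - s) ^ 3 * ((8 * r ^ 2 + 9 * r * s + 3 * s ^ 2) / (8 * r ^ 5 * s))| ≤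
      5 * h ^ 3 / ε ^ 4 := by
    rw [abs_mul, abs_pow, abs_of_nonneg (a := _ / _) (by positivity), mul_comm 5, mul_div_assoc]
    gcongr
  rw [← h2, abs_le] at h5
  constructor <;> linarith [h5.1, h5.2]

noncomputable def b (i : Fin 3) : E := EuclideanSpace.single i 1

lemma b1 (i : Fin 3) : ‖b i‖ = 1 := by simp [b]

lemma nsq (z : E) (i : Fin 3) (h : ℝ) : ‖z + h • b i‖ ^ 2 = ‖z‖ ^ 2 + 2 * h * z i + h ^ 2 := by
  rw [norm_add_sq_real, norm_smul, b1, inner_smul_right, b, EuclideanSpace.inner_single_right]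
  simp; ring

lemma lap {ε h : ℝ} (hε : 0 < ε) (hh : 0 < h) (hhε : h ≤ ε) (z : E) :
    |∑ i, (ke ε (z + h • b i) + ke ε (z + (-h) • b i) - 2 * ke ε z) +
      3 * ε ^ 2 * h ^ 2 / √(‖z‖ ^ 2 + ε ^ 2) ^ 5| ≤ 33 * h ^ 3 / ε ^ 4 := by
  obtain ⟨r, hr⟩ : ∃ r, r = √(‖z‖ ^ 2 + ε ^ 2) := ⟨_, rfl⟩
  obtain ⟨r1, r2, -⟩ := le_rt hε z
  have r3 : r ^ 2 = ‖z‖ ^ 2 + ε ^ 2 := hr ▸ Real.sq_sqrt (by positivity)
  rw [← hr] at r1 r2
  have r0 : 0 < r := hε.trans_le r1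
  have key : ∀ (i : Fin 3) (t : ℝ), |t| = h →
      ke ε (z + t • b i) ≤ r⁻¹ - (2 * t * z i + t ^ 2) / (2 * r ^ 3) +
        3 * (2 * t * z i + t ^ 2) ^ 2 / (8 * r ^ 5) + 5 * h ^ 3 / ε ^ 4 ∧
      r⁻¹ - (2 * t * z i + t ^ 2) / (2 * r ^ 3) + 3 * (2 * t * z i + t ^ 2) ^ 2 / (8 * r ^ 5) -
        5 * h ^ 3 / ε ^ 4 ≤ ke ε (z + t • b i) := by
    intro i t ht
    have s1 := (le_rt hε (z + t • b i)).1
    have s3 : √(‖z + t • b i‖ ^ 2 + ε ^ 2) ^ 2 - r ^ 2 = 2 * t * z i + t ^ 2 := by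
      rw [Real.sq_sqrt (by positivity), nsq, r3]; ring
    have h1 : |t * z i| ≤ h * r := by
      rw [abs_mul, ht]
      exact mul_le_mul_of_nonneg_left ((PiLp.norm_apply_le z i).trans r2) hh.le
    have h2 : t ^ 2 = h ^ 2 := by rw [← ht, sq_abs]
    rw [← s3]
    refine tay hε r1 s1 hh hhε (abs_le.2 ⟨?_, ?_⟩)
    · have := abs_le_of_sq_le_sq' (a := √(‖z + t • b i‖ ^ 2 + ε ^ 2)) (b := r + h)
        (by nlinarith [(abs_le.1 h1).2]) (by positivity)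
      linarith [this.2]
    · have := abs_le_of_sq_le_sq' (a := r - h) (b := √(‖z + t • b i‖ ^ 2 + ε ^ 2))
        (by nlinarith [(abs_le.1 h1).1]) (by positivity)
      linarith [this.2]
  have hz : ‖z‖ ^ 2 = z 0 ^ 2 + z 1 ^ 2 + z 2 ^ 2 := by
    rw [EuclideanSpace.real_norm_sq_eq, Fin.sum_univ_three]
  have e1 : ∑ i : Fin 3, ((r⁻¹ - (2 * h * z i + h ^ 2) / (2 * r ^ 3) +
      3 * (2 * h * z i + h ^ 2) ^ 2 / (8 * r ^ 5)) + (r⁻¹ - (2 * -h * z i + (-h) ^ 2) / (2 * r ^ 3) +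
      3 * (2 * -h * z i + (-h) ^ 2) ^ 2 / (8 * r ^ 5)) - 2 * r⁻¹) + 3 * ε ^ 2 * h ^ 2 / r ^ 5 =
      9 / 4 * (h ^ 4 / r ^ 5) := by
    have : ε ^ 2 = r ^ 2 - (z 0 ^ 2 + z 1 ^ 2 + z 2 ^ 2) := by linarith
    rw [Fin.sum_univ_three, this]
    field_simp
    ring
  have e2 : h ^ 4 / r ^ 5 ≤ h ^ 3 / ε ^ 4 := by
    rw [div_le_div_iff₀ (by positivity) (by positivity)]
    calc h ^ 4 * ε ^ 4 = h ^ 3 * (h * ε ^ 4) := by ring
      _ ≤ h ^ 3 * (r * r ^ 4) := by gcongr; linarith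
      _ = _ := by ring
  have e3 : 0 ≤ h ^ 4 / r ^ 5 := by positivity
  have e4 : ke ε z = r⁻¹ := by rw [hr, ke]
  have p := fun i => key i h (abs_of_pos hh)
  have q := fun i => key i (-h) (by rw [abs_neg, abs_of_pos hh])
  rw [← hr, e4]
  rw [Fin.sum_univ_three] at e1 ⊢
  rw [mul_div_assoc 5] at p q
  rw [mul_div_assoc 33, abs_le]
  constructor
  · linarith [(p 0).2, (p 1).2, (p 2).2, (q 0).2, (q 1).2, (q 2).2]
  · linarith [(p 0).1, (p 1).1, (p 2).1, (q 0).1, (q 1).1, (q 2).1]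

lemma loc {ν : E → ℝ} (h : Bd ν) {x0 : E} {r η : ℝ} (hr : 0 < r) (hη : 0 < η)
    (h0 : ∀ᵐ y, y ∈ ball x0 (2 * r) → 0 ≤ ν y)
    (hm : ∀ x ∈ closedBall x0 r, -P ν x + η * ‖x‖ ^ 2 ≤ -P ν x0 + η * ‖x0‖ ^ 2) : False := by
  obtain ⟨N, hN⟩ : ∃ N, N = ∫ y, |ν y| := ⟨_, rfl⟩
  have l1 : Tendsto (fun ε : ℝ => 3 * ε ^ 2 / r ^ 5 * N) (𝓝[>] 0) (𝓝 (3 * 0 ^ 2 / r ^ 5 * N)) :=
    (Continuous.tendsto (by fun_prop) 0).mono_left nhdsWithin_le_nhds
  obtain ⟨ε, ⟨h1, h2⟩, hε⟩ := (((approx h (η := η * r ^ 2 / 16) (by positivity)).and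
    (l1.eventually (gt_mem_nhds (by simpa using hη)))).and self_mem_nhdsWithin).exists
  replace hε : 0 < ε := hε
  have l2 : Tendsto (fun t : ℝ => 33 * t / ε ^ 4 * N) (𝓝[>] 0) (𝓝 (33 * 0 / ε ^ 4 * N)) :=
    (Continuous.tendsto (by fun_prop) 0).mono_left nhdsWithin_le_nhds
  obtain ⟨t, h3, t0, t1⟩ := ((l2.eventually (gt_mem_nhds (by simpa using hη))).and
    (Ioc_mem_nhdsGT (lt_min hε (half_pos hr)))).exists
  rw [le_min_iff] at t1
  obtain ⟨x, hx, H⟩ := (isCompact_closedBall x0 r).exists_isMaxOn ⟨x0, mem_closedBall_self hr.le⟩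
    (f := fun x => -Pe ε ν x + η * ‖x‖ ^ 2 - η / 2 * ‖x - x0‖ ^ 2)
    (by have := Pe_cont h hε; fun_prop)
  have h4 : ‖x - x0‖ ≤ r / 2 := by
    have h5 := isMaxOn_iff.1 H x0 (mem_closedBall_self hr.le)
    simp only [sub_self, norm_zero] at h5
    refine (abs_le_of_sq_le_sq' (le_of_mul_le_mul_left ?_ hη) (by positivity)).2
    linarith [hm x hx, (abs_le.1 (h1 x)).2, (abs_le.1 (h1 x0)).1]
  have h5 : ∀ (i : Fin 3) (s : ℝ), |s| = t → η * (2 * s * x i + s ^ 2) -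
      η / 2 * (2 * s * (x - x0) i + s ^ 2) ≤ Pe ε ν (x + s • b i) - Pe ε ν x := fun i s hs => by
    have h6 := isMaxOn_iff.1 H (x + s • b i) (by
      rw [mem_closedBall_iff_norm, add_sub_right_comm]
      refine (norm_add_le _ _).trans ?_
      rw [norm_smul, b1, Real.norm_eq_abs, hs]; linarith)
    rw [add_sub_right_comm x, nsq, nsq] at h6
    linarith
  have h6 : 3 * η * t ^ 2 ≤ ∑ i, (Pe ε ν (x + t • b i) + Pe ε ν (x + (-t) • b i) - 2 * Pe ε ν x) := by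
    have p := fun i => h5 i t (abs_of_pos t0)
    have q := fun i => h5 i (-t) (by rw [abs_neg, abs_of_pos t0])
    rw [Fin.sum_univ_three]
    linarith [p 0, p 1, p 2, q 0, q 1, q 2]
  have i1 : ∀ i : Fin 3, Integrable fun y => ke ε (x + t • b i - y) * ν y +
      ke ε (x + (-t) • b i - y) * ν y - 2 * (ke ε (x - y) * ν y) := fun i =>
    ((h.keint hε _).add (h.keint hε _)).sub ((h.keint hε _).const_mul _)
  have h7 : ∑ i, (Pe ε ν (x + t • b i) + Pe ε ν (x + (-t) • b i) - 2 * Pe ε ν x) =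
      ∫ y, ∑ i, (ke ε (x + t • b i - y) * ν y + ke ε (x + (-t) • b i - y) * ν y -
        2 * (ke ε (x - y) * ν y)) := by
    rw [integral_finsetSum _ fun i _ => i1 i]
    refine Finset.sum_congr rfl fun i _ => ?_
    rw [integral_sub (by exact (h.keint hε _).add (h.keint hε _)) ((h.keint hε _).const_mul _),
      integral_add (h.keint hε _) (h.keint hε _), integral_const_mul]
    rfl
  rw [h7] at h6
  have h8 := h6.trans (integral_mono_ae (integrable_finsetSum _ fun i _ => i1 i)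
    (h.abs.int.const_mul (3 * ε ^ 2 * t ^ 2 / r ^ 5 + 33 * t ^ 3 / ε ^ 4)) (h0.mono fun y hy => by
      have h9 := lap hε t0 t1.1 (x - y)
      simp only [add_sub_right_comm x, ← mul_assoc, ← add_mul, ← sub_mul, ← Finset.sum_mul]
      obtain ⟨D, hD⟩ : ∃ D, D = ∑ i, (ke ε (x - y + t • b i) + ke ε (x - y + (-t) • b i) -
        2 * ke ε (x - y)) := ⟨_, rfl⟩
      obtain ⟨q, hq⟩ : ∃ q, q = 3 * ε ^ 2 * t ^ 2 / √(‖x - y‖ ^ 2 + ε ^ 2) ^ 5 := ⟨_, rfl⟩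
      rw [← hD, ← hq] at h9
      rw [← hD]
      have h10 : (D + q) * ν y ≤ 33 * t ^ 3 / ε ^ 4 * |ν y| := (le_abs_self _).trans (by
        rw [abs_mul]; exact mul_le_mul_of_nonneg_right h9 (abs_nonneg _))
      have q0 : 0 ≤ q := by rw [hq]; positivity
      have h11 : -(q * ν y) ≤ 3 * ε ^ 2 * t ^ 2 / r ^ 5 * |ν y| := by
        by_cases hb : y ∈ ball x0 (2 * r)
        · exact (neg_nonpos.2 (mul_nonneg q0 (hy hb))).trans (by positivity)
        · refine (neg_le_abs _).trans ?_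
          rw [abs_mul, abs_of_nonneg q0, hq]
          gcongr
          refine le_trans ?_ (le_rt hε _).2.1
          rw [mem_ball_iff_norm', not_lt] at hb
          linarith [norm_sub_le_norm_sub_add_norm_sub x0 x y, norm_sub_rev x0 x]
      linarith))
  rw [integral_const_mul, ← hN] at h8
  have h9 : (3 * ε ^ 2 * t ^ 2 / r ^ 5 + 33 * t ^ 3 / ε ^ 4) * N =
      (3 * ε ^ 2 / r ^ 5 * N + 33 * t / ε ^ 4 * N) * t ^ 2 := by ring
  rw [h9] at h8
  have := le_of_mul_le_mul_right h8 (by positivity)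
  linarith

lemma gmp {H : Set E} (hH : IsClosed H) {d : E → ℝ} (hd : Continuous d)
    (hinf : ∀ m > 0, ∃ R, ∀ x, R ≤ ‖x‖ → d x ≤ m)
    (hl : ∀ x0 ∈ H, 0 < d x0 → ∃ (r : ℝ) (ν : E → ℝ) (C : ℝ), 0 < r ∧ Bd ν ∧ closedBall x0 r ⊆ H ∧
      (∀ᵐ y, y ∈ ball x0 (2 * r) → 0 ≤ ν y) ∧ ∀ x ∈ closedBall x0 r, d x = C - P ν x) :
    ∀ x ∈ H, d x ≤ 0 := by
  intro x1 hx1
  by_contra hc
  push Not at hc
  obtain ⟨R, hR⟩ := hinf _ (half_pos hc)
  have h1 : ‖x1‖ < R := not_le.1 fun h => by linarith [hR x1 h]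
  have R0 : 0 < R := (norm_nonneg _).trans_lt h1
  obtain ⟨η, hη⟩ : ∃ η, η = d x1 / (4 * R ^ 2) := ⟨_, rfl⟩
  have η0 : 0 < η := by rw [hη]; positivity
  have η1 : η * R ^ 2 = d x1 / 4 := by rw [hη]; field_simp
  obtain ⟨x, hx, Hm⟩ := ((isCompact_closedBall (0 : E) R).inter_left hH).exists_isMaxOn
    ⟨x1, hx1, mem_closedBall_zero_iff.2 h1.le⟩ (f := fun x => d x + η * ‖x‖ ^ 2) (by fun_prop)
  have h2 := isMaxOn_iff.1 Hm x1 ⟨hx1, mem_closedBall_zero_iff.2 h1.le⟩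
  have h3 : η * ‖x‖ ^ 2 ≤ η * R ^ 2 := by have := mem_closedBall_zero_iff.1 hx.2; gcongr
  have h4 : 0 ≤ η * ‖x1‖ ^ 2 := by positivity
  have h5 : ‖x‖ < R := not_le.1 fun h => by linarith [hR x h]
  obtain ⟨r, ν, C, r0, hν, h6, h7, h8⟩ := hl x hx.1 (by linarith)
  have h9 : closedBall x (min r (R - ‖x‖)) ⊆ closedBall x r := closedBall_subset_closedBall (min_le_left _ _)
  refine loc hν (x0 := x) (r := min r (R - ‖x‖)) (lt_min r0 (by linarith)) η0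
    (h7.mono fun y hy h => hy (ball_subset_ball (by linarith [min_le_left r (R - ‖x‖)]) h)) fun z hz => ?_
  have h10 := isMaxOn_iff.1 Hm z ⟨h6 (h9 hz), closedBall_subset_closedBall'
    (by simp only [dist_zero_right]; linarith [min_le_right r (R - ‖x‖)]) hz⟩
  rw [h8 z (h9 hz), h8 x (mem_closedBall_self r0.le)] at h10
  linarith

end Pool.Agent.H.MP_7dd24e_an
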