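import Pool.Agent.H.MP_7dd24e_an.A

namespace Pool.Agent.H.MP_7dd24e_an

open Set Metric MeasureTheory Filter Topology
open scoped ENNReal NNReal RealInnerProductSpace

lemma Bd.pint {ν τ : E → ℝ} (h : Bd ν) (h' : Bd τ) : Integrable fun x => P τ x * ν x :=
  h.mul (cint h'.cont)

lemma sym {ν τ : E → ℝ} (h : Bd ν) (h' : Bd τ) : ∫ x, P τ x * ν x = ∫ x, P ν x * τ x := by
  have h1 := h.1
  have h2 := h'.1
  have hi : Integrable (Function.uncurry fun x y : E => ‖x - y‖⁻¹ * τ y * ν x)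
      (volume.prod volume) := by
    refine (integrable_prod_iff (Measurable.aestronglyMeasurable (by
      unfold Function.uncurry; fun_prop))).2
      ⟨Eventually.of_forall fun x => (h'.kint x).mul_const (ν x), ?_⟩
    refine (h.abs.pint h'.abs).congr (Eventually.of_forall fun x => ?_)
    simp only [P, Function.uncurry, ← integral_mul_const]
    congr 1; ext y
    simp
  simp only [P, ← integral_mul_const]
  rw [integral_integral_swap hi]
  congr 1; ext y; congr 1; ext x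
  rw [norm_sub_rev]; ring

def X (o σ : E → ℝ) : Prop := Measurable σ ∧ ∀ y, 0 ≤ σ y ∧ σ y ≤ o y

lemma X.bd {o σ : E → ℝ} (ho : Bd o) (h : X o σ) : Bd σ :=
  ho.of_le h.1 fun y => by rw [abs_of_nonneg (h.2 y).1]; exact (h.2 y).2

lemma Bd.l2 {ν : E → ℝ} (h : Bd ν) : MemLp ν 2 volume :=
  (memLp_two_iff_integrable_sq h.1.aestronglyMeasurable).2 (by
    simpa [sq] using h.mul fun r => h.int.integrableOn)

instance : Fact ((2 : ℝ≥0∞) ≠ ⊤) := ⟨by simp⟩

lemma wc {o : E → ℝ} (ho : Bd o) (o0 : ∀ y, 0 ≤ o y) {ρ : ℕ → E → ℝ} (hρ : ∀ n, X o (ρ n)) :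
    ∃ (φ : ℕ → ℕ) (σ : E → ℝ), StrictMono φ ∧ X o σ ∧ ∀ f : E → ℝ, Measurable f →
      (∀ r, IntegrableOn (fun y => f y ^ 2) (ball 0 r)) →
      Tendsto (fun n => ∫ y, f y * ρ (φ n) y) atTop (𝓝 (∫ y, f y * σ y)) := by
  have hl := fun n => ((hρ n).bd ho).l2
  obtain ⟨a, -, φ, hφ, ha⟩ := WeakDual.isSeqCompact_closedBall ℝ (Lp ℝ 2 (volume : Measure E)) 0
    ‖ho.l2.toLp o‖ (x := fun n => StrongDual.toWeakDual (innerSL ℝ ((hl n).toLp _))) fun n => by
      simp only [mem_preimage, WeakDual.toStrongDual, LinearEquiv.symm_apply_apply,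
        mem_closedBall_zero_iff, innerSL_apply_norm]
      refine Lp.norm_le_norm_of_ae_le ?_
      filter_upwards [(hl n).coeFn_toLp, ho.l2.coeFn_toLp] with y h1 h2
      rw [h1, h2, Real.norm_of_nonneg (o0 y), Real.norm_of_nonneg ((hρ n).2 y).1]
      exact ((hρ n).2 y).2
  obtain ⟨g, hg⟩ : ∃ g : Lp ℝ 2 (volume : Measure E), ∀ f, a f = ⟪g, f⟫ :=
    ⟨(InnerProductSpace.toDual ℝ _).symm (WeakDual.toStrongDual a), fun f => by
      rw [InnerProductSpace.toDual_symm_apply]; rfl⟩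
  have key : ∀ f : E → ℝ, MemLp f 2 volume →
      Tendsto (fun n => ∫ y, f y * ρ (φ n) y) atTop (𝓝 (∫ y, f y * g y)) := by
    intro f hf
    have h1 := ((WeakDual.eval_continuous (hf.toLp f)).tendsto a).comp ha
    rw [hg, L2.inner_def, integral_congr_ae (g := fun y => f y * g y)
      (hf.coeFn_toLp.mono fun y hy => by simp [hy])] at h1
    refine h1.congr fun n => ?_
    change ⟪(hl (φ n)).toLp _, hf.toLp f⟫ = _
    rw [L2.inner_def]
    refine integral_congr_ae ?_
    filter_upwards [hf.coeFn_toLp, (hl (φ n)).coeFn_toLp] with y h2 h3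
    simp [h2, h3]
  have gi : ∀ s : Set E, volume s < ∞ → IntegrableOn g s := fun s h =>
    integrableOn_Lp_of_measure_ne_top g (by norm_num) h.ne
  have k2 : ∀ s : Set E, MeasurableSet s → volume s < ∞ →
      Tendsto (fun n => ∫ y in s, ρ (φ n) y) atTop (𝓝 (∫ y in s, g y)) := fun s hs h => by
    have := key _ (memLp_indicator_const 2 hs (1 : ℝ) (Or.inr h.ne))
    simpa only [← indicator_mul_left, one_mul, integral_indicator hs] using this
  have g0 : 0 ≤ᵐ[volume] (g : E → ℝ) := ae_nonneg_of_forall_setIntegral_nonneg_of_sigmaFinite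
    (fun s _ h => gi s h) fun s hs h =>
      ge_of_tendsto' (k2 s hs h) fun n => integral_nonneg fun y => ((hρ _).2 y).1
  have g1 : 0 ≤ᵐ[volume] fun y => o y - g y := ae_nonneg_of_forall_setIntegral_nonneg_of_sigmaFinite
    (fun s _ h => ho.int.integrableOn.sub (gi s h)) fun s hs h => by
      rw [integral_sub ho.int.integrableOn (gi s h), sub_nonneg]
      exact le_of_tendsto' (k2 s hs h) fun n => integral_mono ((hρ _).bd ho).int.integrableOn
        ho.int.integrableOn fun y => ((hρ _).2 y).2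
  have hm := (Lp.stronglyMeasurable g).measurable
  have hX : X o fun y => max 0 (min (o y) (g y)) := ⟨measurable_const.max (ho.1.min hm),
    fun y => ⟨le_max_left _ _, max_le (o0 y) (min_le_left _ _)⟩⟩
  refine ⟨φ, _, hφ, hX, fun f hf hf2 => ?_⟩
  obtain ⟨-, B, R, -, -, -, h2⟩ := id ho
  have h3 := key ((ball (0 : E) R).indicator f) ((memLp_two_iff_integrable_sq
    (hf.indicator measurableSet_ball).aestronglyMeasurable).2
    (((integrable_indicator_iff measurableSet_ball).2 (hf2 R)).congr (Eventually.of_forall fun y => by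
      by_cases hy : y ∈ ball (0 : E) R <;> simp [hy])))
  have h4 : ∀ σ, X o σ → ∀ y, (ball (0 : E) R).indicator f y * σ y = f y * σ y := fun σ h y => by
    by_cases hy : y ∈ ball (0 : E) R
    · simp [hy]
    · have := le_antisymm ((h.2 y).2.trans_eq (h2 y (by simpa using hy))) (h.2 y).1
      simp [this]
  simp only [h4 _ (hρ _)] at h3
  convert h3 using 2
  refine integral_congr_ae ?_
  filter_upwards [g0, g1] with y h5 h6
  rw [← h4 _ hX y, min_eq_right (sub_nonneg.1 h6), max_eq_right (show 0 ≤ g y from h5)]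

theorem obst {o : E → ℝ} (ho : Bd o) (o0 : ∀ y, 0 ≤ o y) (c : ℝ) : ∃ σ, X o σ ∧
    ∀ᵐ y, (c < P σ y → σ y = 0) ∧ (P σ y < c → σ y = o y) := by
  obtain ⟨J, hJ⟩ : ∃ J : (E → ℝ) → ℝ, J = fun σ => (∫ x, P σ x * σ x) / 2 - c * ∫ x, σ x := ⟨_, rfl⟩
  have P0 : ∀ σ, X o σ → ∀ x, 0 ≤ P σ x := fun σ h x =>
    integral_nonneg fun y => mul_nonneg (by positivity) (h.2 y).1
  have P1 : ∀ σ, X o σ → ∀ x, P σ x ≤ P o x := fun σ h x =>
    P_mono (h.bd ho) ho (Eventually.of_forall fun y => (h.2 y).2) x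
  have hb : BddBelow (J '' {σ | X o σ}) := ⟨-(|c| * ∫ x, o x), by
    rintro _ ⟨σ, h, rfl⟩
    have h1 : 0 ≤ ∫ x, P σ x * σ x := integral_nonneg fun x => mul_nonneg (P0 σ h x) (h.2 x).1
    have h2 : 0 ≤ ∫ x, σ x := integral_nonneg fun x => (h.2 x).1
    have h3 : ∫ x, σ x ≤ ∫ x, o x := integral_mono (h.bd ho).int ho.int fun x => (h.2 x).2
    have h4 := mul_le_mul (le_abs_self c) h3 h2 (abs_nonneg c)
    simp only [hJ]
    linarith⟩
  obtain ⟨u, -, hu, hu'⟩ := exists_seq_tendsto_sInf (S := J '' {σ | X o σ}) ⟨_, o, ⟨ho.1, fun y => ⟨o0 y, le_rfl⟩⟩, rfl⟩ hb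
  choose ρ hρ hρ' using hu'
  obtain ⟨φ, σ, hφ, hσ, H⟩ := wc ho o0 hρ
  have hs := hσ.bd ho
  have l1 : ∀ x, Tendsto (fun n => P (ρ (φ n)) x) atTop (𝓝 (P σ x)) := fun x =>
    H _ (by fun_prop) (kint' 2 (by norm_num) x)
  have l2 := H _ hs.cont.measurable (cint (hs.cont.pow 2))
  have l3 := H (fun _ => 1) measurable_const (cint (by fun_prop))
  simp only [one_mul] at l3
  have l4 : Tendsto (fun n => ∫ x, |P (ρ (φ n)) x - P σ x| * o x) atTop (𝓝 (∫ x, |P σ x - P σ x| * o x)) :=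
    tendsto_integral_of_dominated_convergence (fun x => P o x * o x)
      (fun n => (ho.mul (cint (((hρ _).bd ho).cont.sub hs.cont).abs)).aestronglyMeasurable)
      (ho.pint ho) (fun n => Eventually.of_forall fun x => by
        rw [Real.norm_of_nonneg (mul_nonneg (abs_nonneg _) (o0 x))]
        refine mul_le_mul_of_nonneg_right (abs_le.2 ⟨?_, ?_⟩) (o0 x) <;>
          linarith [P0 _ (hρ (φ n)) x, P1 _ (hρ (φ n)) x, P0 _ hσ x, P1 _ hσ x])
      (Eventually.of_forall fun x => ((l1 x).sub_const _).abs.mul_const _)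
  simp only [sub_self, abs_zero, zero_mul, integral_zero] at l4
  have l5 : Tendsto (fun n => (∫ x, P (ρ (φ n)) x * ρ (φ n) x) - ∫ x, P σ x * ρ (φ n) x) atTop (𝓝 0) := by
    refine squeeze_zero_norm (fun n => ?_) l4
    have hn := (hρ (φ n)).bd ho
    rw [← integral_sub (hn.pint hn) (hn.pint hs)]
    refine norm_integral_le_of_norm_le (ho.mul (cint (hn.cont.sub hs.cont).abs))
      (Eventually.of_forall fun x => ?_)
    rw [← sub_mul, Real.norm_eq_abs, abs_mul, abs_of_nonneg ((hρ _).2 x).1]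
    exact mul_le_mul_of_nonneg_left ((hρ _).2 x).2 (abs_nonneg _)
  have l6 : J σ = sInf (J '' {σ | X o σ}) := by
    refine tendsto_nhds_unique ?_ (hu.comp hφ.tendsto_atTop)
    have := ((l5.add l2).div_const 2).sub (l3.const_mul c)
    simp only [zero_add, sub_add_cancel] at this
    simp only [hJ] at hρ' ⊢
    exact this.congr fun n => hρ' (φ n)
  obtain ⟨τ, hτ⟩ : ∃ τ : E → ℝ, τ = {y | P σ y < c}.indicator o := ⟨_, rfl⟩
  have τ1 : ∀ y, P σ y < c → τ y = o y := fun y h => hτ ▸ indicator_of_mem (s := {y | P σ y < c}) h _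
  have τ2 : ∀ y, ¬ P σ y < c → τ y = 0 := fun y h => hτ ▸ indicator_of_notMem (s := {y | P σ y < c}) h _
  have hτX : X o τ := ⟨hτ ▸ ho.1.indicator (isOpen_lt hs.cont continuous_const).measurableSet, fun y => by
    by_cases h : P σ y < c
    · rw [τ1 y h]; exact ⟨o0 y, le_rfl⟩
    · rw [τ2 y h]; exact ⟨le_rfl, o0 y⟩⟩
  have hχ := (hτX.bd ho).lin hs 1 (-1)
  obtain ⟨χ, hχ'⟩ : ∃ χ : E → ℝ, χ = fun y => 1 * τ y + -1 * σ y := ⟨_, rfl⟩
  rw [← hχ'] at hχ
  have i1 : Integrable fun x => (P σ x - c) * χ x := hχ.mul (cint (hs.cont.sub continuous_const))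
  have h1 : ∀ t ∈ Ioc (0 : ℝ) 1, 0 ≤ (∫ x, (P σ x - c) * χ x) + t * ((∫ x, P χ x * χ x) / 2) := by
    intro t ht
    have h2 : X o fun y => 1 * σ y + t * χ y := ⟨(hs.lin hχ 1 t).1, fun y => by
      simp only [hχ']
      constructor <;> nlinarith [hσ.2 y, hτX.2 y, ht.1, ht.2]⟩
    have h3 := l6.trans_le (csInf_le hb ⟨_, h2, rfl⟩)
    simp only [hJ, P_lin hs hχ] at h3
    have h4 : ∫ x, (1 * P σ x + t * P χ x) * (1 * σ x + t * χ x) = (∫ x, P σ x * σ x) +
        t * (∫ x, P σ x * χ x) + (t * (∫ x, P χ x * σ x) + t ^ 2 * ∫ x, P χ x * χ x) := by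
      simp only [← integral_const_mul]
      rw [← integral_add (hs.pint hs) ((hχ.pint hs).const_mul _),
        ← integral_add ((hs.pint hχ).const_mul _) ((hχ.pint hχ).const_mul _),
        ← integral_add (by exact (hs.pint hs).add ((hχ.pint hs).const_mul _))
          (by exact ((hs.pint hχ).const_mul _).add ((hχ.pint hχ).const_mul _))]
      congr 1; ext x; ring
    rw [h4, sym hs hχ, integral_add (hs.int.const_mul _) (hχ.int.const_mul _), integral_const_mul,
      integral_const_mul] at h3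
    simp only [sub_mul]
    rw [integral_sub (hχ.pint hs) (hχ.int.const_mul _), integral_const_mul]
    refine le_of_mul_le_mul_left ?_ ht.1
    linarith
  have h2 : 0 ≤ ∫ x, (P σ x - c) * χ x := by
    have l : Tendsto (fun t : ℝ => (∫ x, (P σ x - c) * χ x) + t * ((∫ x, P χ x * χ x) / 2)) (𝓝[>] 0)
        (𝓝 ((∫ x, (P σ x - c) * χ x) + 0 * ((∫ x, P χ x * χ x) / 2))) :=
      (Continuous.tendsto (by fun_prop) 0).mono_left nhdsWithin_le_nhds
    simpa using ge_of_tendsto l (mem_of_superset (Ioc_mem_nhdsGT one_pos) h1)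
  have h3 : ∀ x, 0 ≤ -((P σ x - c) * χ x) := fun x => by
    simp only [hχ']
    by_cases h : P σ x < c
    · rw [τ1 x h]; nlinarith [hσ.2 x]
    · rw [τ2 x h]; nlinarith [hσ.2 x, not_lt.1 h]
  have h4 := (integral_eq_zero_iff_of_nonneg h3 i1.neg).1 (le_antisymm
    (by rw [integral_neg]; linarith) (integral_nonneg h3))
  refine ⟨σ, hσ, h4.mono fun x hx => ?_⟩
  simp only [hχ', Pi.zero_apply, neg_eq_zero, mul_eq_zero] at hx
  constructor <;> intro h
  · rw [τ2 x h.le.not_gt] at hx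
    rcases hx with hx | hx <;> linarith
  · rw [τ1 x h] at hx
    rcases hx with hx | hx <;> linarith

end Pool.Agent.H.MP_7dd24e_an
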