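import Pool.Agent.H.MP_7dd24e_an.B
import Pool.Agent.H.MP_f42450_an.A

namespace Pool.Agent.H.MP_7dd24e_an

open Set Metric MeasureTheory Filter Topology
open scoped ENNReal NNReal RealInnerProductSpace Pointwise

lemma star {K T : Set E} (hK : IsCompact K) (hT : IsOpen T) (hTK : T ⊆ K) (hne : K.Nonempty)
    (h : ∀ x ∈ K, ∀ τ ∈ Ico (0 : ℝ) 1, τ • x ∈ T) :
    closure T = K ∧ IsConnected T ∧ Nonempty (frontier T ≃ₜ sphere (0 : E) 1) := by
  have h0 : (0 : E) ∈ T := by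
    obtain ⟨x, hx⟩ := hne
    simpa using h x hx 0 ⟨le_rfl, one_pos⟩
  have h1 : closure T = K := by
    refine (closure_minimal hTK hK.isClosed).antisymm fun x hx => ?_
    have l : Tendsto (fun τ : ℝ => τ • x) (𝓝[<] 1) (𝓝 ((1 : ℝ) • x)) :=
      (Continuous.tendsto (by fun_prop) 1).mono_left nhdsWithin_le_nhds
    rw [one_smul] at l
    exact mem_closure_of_tendsto l (mem_of_superset (Ico_mem_nhdsLT one_pos) (h x hx))
  refine ⟨h1, (StarConvex.isPathConnected (starConvex_zero_iff.2 fun x hx a a0 a1 => ?_) h0).isConnected,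
    ?_⟩
  · rcases a1.eq_or_lt with rfl | a1
    · simpa using hx
    · exact h x (hTK hx) a ⟨a0, a1⟩
  rw [hT.frontier_eq, h1]
  have n0 : ∀ x : ↥(K \ T), ‖(x : E)‖ ≠ 0 := fun x h => x.2.2 (norm_eq_zero.1 h ▸ h0)
  have : CompactSpace ↥(K \ T) := isCompact_iff_compactSpace.1 (hK.diff hT)
  let f : ↥(K \ T) → sphere (0 : E) 1 := fun x => ⟨‖(x : E)‖⁻¹ • x, by
    simp [norm_smul, inv_mul_cancel₀ (n0 x)]⟩
  have aux : ∀ x y : ↥(K \ T), f x = f y → ¬ ‖(x : E)‖ < ‖(y : E)‖ := fun x y hxy hlt => by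
    have h2 : ‖(x : E)‖⁻¹ • (x : E) = ‖(y : E)‖⁻¹ • (y : E) := congrArg Subtype.val hxy
    have h3 := h y y.2.1 (‖(x : E)‖ * ‖(y : E)‖⁻¹) ⟨by positivity,
      (mul_inv_lt_iff₀ ((norm_nonneg _).trans_lt hlt)).2 (by simpa using hlt)⟩
    rw [mul_smul, ← h2, smul_inv_smul₀ (n0 x)] at h3
    exact x.2.2 h3
  have hf : Function.Bijective f := ⟨fun x y hxy => by
      have h2 : ‖(x : E)‖⁻¹ • (x : E) = ‖(y : E)‖⁻¹ • (y : E) := congrArg Subtype.val hxy
      rw [le_antisymm (not_lt.1 (aux y x hxy.symm)) (not_lt.1 (aux x y hxy))] at h2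
      exact Subtype.ext (smul_right_injective E (inv_ne_zero (n0 y)) h2), fun u => by
      have u1 : ‖(u : E)‖ = 1 := mem_sphere_zero_iff_norm.1 u.2
      have hc : Continuous fun t : ℝ => t • (u : E) := by fun_prop
      obtain ⟨R, hR⟩ := hK.isBounded.exists_norm_le
      obtain ⟨t, ⟨t0, ht⟩, H⟩ := (isCompact_Icc.inter_right (hK.isClosed.preimage hc) :
        IsCompact (Icc (0 : ℝ) R ∩ _)).exists_isMaxOn
        ⟨0, ⟨le_rfl, by simpa using hR 0 (hTK h0)⟩, by simpa using hTK h0⟩ continuousOn_id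
      have h2 : t • (u : E) ∉ T := fun h2 => by
        obtain ⟨s, h3, h4⟩ := ((eventually_nhdsWithin_of_eventually_nhds (s := Ioi t)
          (hc.continuousAt.eventually_mem (hT.mem_nhds h2))).and self_mem_nhdsWithin).exists
        have h5 := hR _ (hTK h3)
        rw [norm_smul, u1, mul_one] at h5
        exact absurd (isMaxOn_iff.1 H s ⟨⟨t0.1.trans (le_of_lt h4), (le_abs_self _).trans h5⟩, hTK h3⟩)
          (not_le.2 h4)
      have h3 : t ≠ 0 := fun h => h2 (by simpa [h] using h0)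
      exact ⟨⟨_, ht, h2⟩, Subtype.ext (by
        simp [f, norm_smul, u1, abs_of_nonneg t0.1, inv_smul_smul₀ h3])⟩⟩
  exact ⟨Continuous.homeoOfEquivCompactToT2 (f := Equiv.ofBijective f hf) (Continuous.subtype_mk
    ((continuous_subtype_val.norm.inv₀ n0).smul continuous_subtype_val) _)⟩

lemma iso {ν : E → ℝ} (h : Bd ν) (Q : E ≃ₗᵢ[ℝ] E) (v : E) :
    MeasurePreserving (fun y => Q y + v) ∧ Bd (fun y => ν (Q y + v)) ∧
      ∀ x, P (fun y => ν (Q y + v)) x = P ν (Q x + v) := by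
  have h1 : MeasurePreserving (fun y => Q y + v) :=
    (measurePreserving_add_right volume v).comp Q.measurePreserving
  refine ⟨h1, ?_, fun x => ?_⟩
  · obtain ⟨hm, B, R, B0, R0, h2, h3⟩ := h
    refine ⟨hm.comp h1.measurable, B, R + ‖v‖, B0, by positivity, fun y => h2 _, fun y hy => h3 _ ?_⟩
    have := norm_sub_le (Q y + v) v
    rw [add_sub_cancel_right, Q.norm_map] at this
    linarith
  · rw [P, P, ← h1.integral_comp (Q.toHomeomorph.trans (Homeomorph.addRight v)).measurableEmbedding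
      (fun y => ‖Q x + v - y‖⁻¹ * ν y)]
    simp only [add_sub_add_right_eq_sub, ← map_sub, Q.norm_map]

variable {o σ : E → ℝ} {c : ℝ}

lemma nb {s : Set E} {x : E} (h : s ∈ 𝓝 x) : ∃ r > 0, closedBall x r ⊆ s ∧ ball x (2 * r) ⊆ s := by
  obtain ⟨r, r0, h⟩ := Metric.mem_nhds_iff.1 h
  exact ⟨r / 2, half_pos r0, (closedBall_subset_ball (half_lt_self r0)).trans h,
    (ball_subset_ball (by linarith)).trans h⟩

lemma le_c (hs : Bd σ) (hc : 0 < c) (h : ∀ᵐ y, c < P σ y → σ y = 0) (x : E) : P σ x ≤ c := by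
  refine sub_nonpos.1 (gmp isClosed_univ (d := fun x => P σ x - c) (hs.cont.sub continuous_const)
    (fun m hm => (hs.decay hm).imp fun R hR x hx => by linarith [(abs_le.1 (hR x hx)).2])
    (fun x0 _ h0 => ?_) x trivial)
  obtain ⟨r, r0, -, h1⟩ := nb ((isOpen_lt continuous_const hs.cont).mem_nhds (sub_pos.1 h0))
  exact ⟨r, _, -c, r0, hs.lin hs (-1) 0, subset_univ _, h.mono fun y hy hb => by simp [hy (h1 hb)],
    fun x _ => by rw [P_lin hs hs]; ring⟩

lemma refl (ho : Bd o) (hσ : X o σ) (hc : ∀ x, P σ x ≤ c) (h : ∀ᵐ y, P σ y < c → σ y = o y)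
    {n : E} (hn : ‖n‖ = 1) {s : ℝ} (h1 : ∀ z, s ≤ ⟪n, z⟫ → o z ≤ o (z - (2 * (⟪n, z⟫ - s)) • n))
    (x : E) (hx : s ≤ ⟪n, x⟫) : P σ x ≤ P σ (x - (2 * (⟪n, x⟫ - s)) • n) := by
  have hs := hσ.bd ho
  obtain ⟨h2, h3, h4⟩ := iso hs (MP_f42450_an.rf n) ((2 * s) • n)
  have e : ∀ z, MP_f42450_an.rf n z + (2 * s) • n = z - (2 * (⟪n, z⟫ - s)) • n := fun z => by
    rw [MP_f42450_an.rf_apply hn]; module
  simp only [← e] at h1 ⊢
  obtain ⟨T, hT⟩ : ∃ T : E → E, T = fun z => MP_f42450_an.rf n z + (2 * s) • n := ⟨_, rfl⟩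
  simp only [← congrFun hT] at h1 h2 h3 h4 ⊢
  rw [← h4]
  have hd := hs.cont.sub h3.cont
  refine sub_nonpos.1 (gmp (H := {z | s ≤ ⟪n, z⟫}) (isClosed_le continuous_const (by fun_prop)) hd
    (fun m hm => ?_) (fun x0 h5 h0 => ?_) x hx)
  · obtain ⟨R, hR⟩ := hs.decay (half_pos hm)
    obtain ⟨R', hR'⟩ := h3.decay (half_pos hm)
    exact ⟨max R R', fun x hx => by
      linarith [(abs_le.1 (hR x (le_of_max_le_left hx))).2, (abs_le.1 (hR' x (le_of_max_le_right hx))).1,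
        Pi.sub_apply (P σ) (P fun y => σ (T y)) x]⟩
  have h6 : s < ⟪n, x0⟫ := lt_of_le_of_ne h5 fun h6 => by
    rw [Pi.sub_apply, h4, hT] at h0
    simp only [e, ← h6] at h0
    simp at h0
  obtain ⟨r, r0, h7, h8⟩ := nb (((isOpen_lt continuous_const hd).inter
    (isOpen_lt continuous_const (by fun_prop : Continuous fun z => ⟪n, z⟫))).mem_nhds ⟨h0, h6⟩)
  refine ⟨r, _, 0, r0, h3.lin hs 1 (-1), fun z hz => (show s < ⟪n, z⟫ from (h7 hz).2).le,
    (h2.quasiMeasurePreserving.ae h).mono fun y hy hb => ?_, fun x _ => by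
      rw [P_lin h3 hs, Pi.sub_apply]; ring⟩
  have h9 : 0 < P σ y - P (fun y => σ (T y)) y := (h8 hb).1
  rw [h4] at h9
  rw [hy (by linarith [hc y])]
  linarith [h1 y (le_of_lt (h8 hb).2), (hσ.2 y).2]

lemma vanish (hs : Bd σ) (h0 : ∀ y, 0 ≤ σ y) {T L : Set E} (hT : IsOpen T) (hL : IsClosed L) (hLT : L ⊆ T)
    (h : ∀ x ∈ T, P σ x = c) : ∀ᵐ y, y ∈ L → σ y = 0 := by
  have h1 : Bd (L.indicator σ) := hs.of_le (hs.1.indicator hL.measurableSet) fun y => by
    by_cases hy : y ∈ L <;> simp [hy, abs_of_nonneg, h0]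
  have h2 := gmp isClosed_univ h1.cont
    (fun m hm => (h1.decay hm).imp fun R hR x hx => (abs_le.1 (hR x hx)).2) (fun x0 _ _ => by
      by_cases hx : x0 ∈ T
      · obtain ⟨r, r0, h2, -⟩ := nb (hT.mem_nhds hx)
        exact ⟨r, _, c, r0, hs.lin h1 1 (-1), subset_univ _, Eventually.of_forall fun y _ => by
          by_cases hy : y ∈ L <;> simp [hy, h0], fun x hx => by rw [P_lin hs h1, h x (h2 hx)]; ring⟩
      · obtain ⟨r, r0, -, h2⟩ := nb (hL.isOpen_compl.mem_nhds (mt (@hLT x0) hx))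
        exact ⟨r, _, 0, r0, h1.lin h1 (-1) 0, subset_univ _, Eventually.of_forall fun y hy => by
          simp [indicator_of_notMem (h2 hy)], fun x _ => by rw [P_lin h1 h1]; ring⟩) 0 trivial
  have h3 : ∀ y, 0 ≤ ‖0 - y‖⁻¹ * L.indicator σ y := fun y =>
    mul_nonneg (by positivity) (indicator_nonneg (fun y _ => h0 y) y)
  filter_upwards [(integral_eq_zero_iff_of_nonneg h3 (h1.kint 0)).1
    (le_antisymm h2 (integral_nonneg h3)), (by simp [ae_iff] : ∀ᵐ y : E, y ≠ 0)] with y h4 h5 hy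
  simpa [h5, hy] using h4

lemma vb (z : E) {r : ℝ} (hr : 0 < r) :
    ∫ y, (ball z r).indicator (fun _ => (1 : ℝ)) y = r ^ 3 * volume.real (ball (0 : E) 1) := by
  rw [integral_indicator measurableSet_ball, setIntegral_const, smul_eq_mul, mul_one, Measure.real,
    Measure.addHaar_ball_of_pos _ _ hr, ENNReal.toReal_mul, ENNReal.toReal_ofReal (by positivity)]
  simp [Measure.real]

lemma pb {r : ℝ} (hr : 0 < r) : P ((ball (0 : E) r).indicator fun _ => 1) 0 =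
    r ^ 2 * P ((ball (0 : E) 1).indicator fun _ => 1) 0 := by
  have h : ∀ r, P ((ball (0 : E) r).indicator fun _ => 1) 0 = ∫ y in ball (0 : E) r, ‖y‖⁻¹ := fun r => by
    rw [P, ← integral_indicator measurableSet_ball]
    congr 1; ext y
    by_cases hy : y ∈ ball (0 : E) r <;> simp [hy]
  have h1 := Measure.setIntegral_comp_smul_of_pos volume (fun y : E => ‖y‖⁻¹) (ball (0 : E) 1) hr
  simp only [norm_smul, mul_inv, integral_const_mul, smul_unitBall_of_pos hr, finrank_euclideanSpace_fin,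
    Real.norm_of_nonneg hr.le, smul_eq_mul] at h1
  rw [h, h]
  rw [inv_mul_eq_iff_eq_mul₀ hr.ne', ← mul_assoc, eq_comm, ← eq_inv_mul_iff_mul_eq₀ (by positivity)] at h1
  rw [h1]
  congr 1
  field_simp

lemma const : ∃ δ c : ℝ, 0 < δ ∧ δ ≤ 1 / 16 ∧ ∀ Ω : Set E, MeasurableSet Ω → ball 0 (1 - δ) ⊆ Ω →
    Ω ⊆ ball 0 (1 + δ) → (∀ x, 1 / 2 ≤ ‖x‖ → P (Ω.indicator fun _ => 1) x < c) ∧
      c < P (Ω.indicator fun _ => 1) 0 - P ((ball (0 : E) (4 * δ)).indicator fun _ => 1) 0 := by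
  obtain ⟨I, hI⟩ : ∃ I, I = P ((ball (0 : E) 1).indicator fun _ => 1) 0 := ⟨_, rfl⟩
  obtain ⟨v, hv⟩ : ∃ v, v = volume.real (ball (0 : E) 1) := ⟨_, rfl⟩
  have v0 : 0 < v := hv ▸ ENNReal.toReal_pos (measure_ball_pos _ _ one_pos).ne' measure_ball_lt_top.ne
  have l : Tendsto (fun δ : ℝ => (1 + δ) ^ 3 * v + I - 1 ^ 3 * v - 3 / 13 * ((1 / 16) ^ 3 * v) -
      ((1 - δ) ^ 2 * I - (4 * δ) ^ 2 * I)) (𝓝[>] 0) (𝓝 ((1 + 0) ^ 3 * v + I - 1 ^ 3 * v -
      3 / 13 * ((1 / 16) ^ 3 * v) - ((1 - 0) ^ 2 * I - (4 * 0) ^ 2 * I))) :=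
    (Continuous.tendsto (by fun_prop) 0).mono_left nhdsWithin_le_nhds
  obtain ⟨δ, h1, δ0, δ1⟩ := ((l.eventually (gt_mem_nhds (show _ < 0 by linarith))).and
    (Ioc_mem_nhdsGT (by norm_num : (0 : ℝ) < 1 / 16))).exists
  obtain ⟨c, c1, c2⟩ := exists_between (sub_neg.1 h1)
  have ib : ∀ (z : E) (r : ℝ), Bd ((ball z r).indicator fun _ => (1 : ℝ)) := fun z r =>
    ind measurableSet_ball isBounded_ball
  refine ⟨δ, c, δ0, δ1, fun Ω hΩ h2 h3 => ⟨fun x hx => lt_of_le_of_lt ?_ c1, c2.trans_le ?_⟩⟩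
  · obtain ⟨z, hz⟩ : ∃ z, z = x + (3 / 4 * ‖x‖⁻¹) • x := ⟨_, rfl⟩
    have x0 : 0 < ‖x‖ := by linarith
    have z1 : ‖z - x‖ = 3 / 4 := by
      rw [hz, add_sub_cancel_left, norm_smul, Real.norm_of_nonneg (by positivity)]; field_simp
    have z2 : ‖z‖ = ‖x‖ + 3 / 4 := by
      rw [hz, show x + (3 / 4 * ‖x‖⁻¹) • x = (1 + 3 / 4 * ‖x‖⁻¹) • x by module, norm_smul,
        Real.norm_of_nonneg (by positivity)]; field_simp
    have h4 : P ((ball x 1).indicator fun _ => 1) x = I := by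
      have := (iso (ib 0 1) (LinearIsometryEquiv.refl ℝ E) (-x)).2.2 x
      simp only [LinearIsometryEquiv.coe_refl, id, add_neg_cancel] at this
      rw [hI, ← this]
      congr 1; ext y
      simp [indicator, dist_eq_norm, sub_eq_add_neg]
    rw [hv, ← vb 0 (by linarith : 0 < 1 + δ), ← vb x one_pos, ← vb z (by norm_num : (0 : ℝ) < 1 / 16),
      ← h4, P, P, ← integral_const_mul, ← integral_add (ib _ _).int ((ib _ _).kint x),
      ← integral_sub (by exact (ib _ _).int.add ((ib _ _).kint x)) (ib _ _).int,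
      ← integral_sub (by exact ((ib _ _).int.add ((ib _ _).kint x)).sub (ib _ _).int)
        ((ib _ _).int.const_mul _)]
    refine integral_mono_ae ((ind hΩ (isBounded_ball.subset h3)).kint x)
      ((((ib _ _).int.add ((ib _ _).kint x)).sub (ib _ _).int).sub ((ib _ _).int.const_mul _)) ?_
    filter_upwards [(by simp [ae_iff] : ∀ᵐ y : E, y ≠ x)] with y hy
    have y0 : 0 < ‖x - y‖ := norm_pos_iff.2 (sub_ne_zero.2 hy.symm)
    have k1 : y ∈ ball x 1 → 1 ≤ ‖x - y‖⁻¹ := fun h =>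
      (one_le_inv₀ y0).2 (mem_ball_iff_norm'.1 h).le
    have k2 : y ∉ ball x 1 → ‖x - y‖⁻¹ ≤ 1 := fun h =>
      inv_le_one_of_one_le₀ (not_lt.1 (mt mem_ball_iff_norm'.2 h))
    have k3 : 0 ≤ (ball (0 : E) (1 + δ)).indicator (fun _ => (1 : ℝ)) y :=
      indicator_nonneg (fun _ _ => zero_le_one) y
    by_cases hD : y ∈ ball z (1 / 16)
    · have h5 := mem_ball_iff_norm'.1 hD
      have h6 : ‖x - y‖ ≤ 13 / 16 := by
        linarith [norm_sub_le_norm_sub_add_norm_sub x z y, norm_sub_rev x z]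
      have h7 : y ∉ Ω := fun h => by linarith [mem_ball_zero_iff.1 (h3 h), norm_sub_norm_le z y]
      have h8 : (13 / 16 : ℝ)⁻¹ ≤ ‖x - y‖⁻¹ := inv_anti₀ y0 h6
      simp only [indicator_of_mem hD, indicator_of_notMem h7,
        indicator_of_mem (mem_ball_iff_norm'.2 (by linarith) : y ∈ ball x 1)]
      norm_num at h8 ⊢
      linarith
    · simp only [indicator_of_notMem hD]
      by_cases h5 : y ∈ Ω <;> by_cases h6 : y ∈ ball x 1
      · simp [h5, h6, indicator_of_mem (h3 h5)]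
      · simpa [h5, indicator_of_notMem h6, indicator_of_mem (h3 h5)] using k2 h6
      · simp only [indicator_of_notMem h5, indicator_of_mem h6]
        linarith [k1 h6]
      · simp only [indicator_of_notMem h5, indicator_of_notMem h6]
        linarith
  · rw [hI, ← pb (by linarith : 0 < 1 - δ), ← pb (by linarith : 0 < 4 * δ)]
    exact sub_le_sub_right (P_mono (ib _ _) (ind hΩ (isBounded_ball.subset h3))
      (Eventually.of_forall (indicator_le_indicator_of_subset h2 fun _ => zero_le_one)) 0) _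

theorem main : ∃ (δ : ℝ) (K T : Set E) (c : ℝ), 0 < δ ∧ δ ≤ 1 / 16 ∧ IsCompact K ∧ IsOpen T ∧ T ⊆ K ∧
    K.Nonempty ∧ (∀ x ∈ K, ∀ τ ∈ Ico (0 : ℝ) 1, τ • x ∈ T) ∧ K ⊆ ball 0 (1 / 2) ∧
    ∀ x ∈ T, ∫ M in (ball (δ • b 0) 1 ∪ ball (-(δ • b 0)) 1) \ K, (dist x M)⁻¹ = c := by
  obtain ⟨δ, c, δ0, δ1, H⟩ := const
  obtain ⟨Ω, hΩ⟩ : ∃ Ω, Ω = ball (δ • b 0) 1 ∪ ball (-(δ • b 0)) 1 := ⟨_, rfl⟩
  have a1 : ‖δ • b 0‖ = δ := by rw [norm_smul, b1, mul_one, Real.norm_of_nonneg δ0.le]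
  have mΩ : MeasurableSet Ω := hΩ ▸ measurableSet_ball.union measurableSet_ball
  have h1 : Ω ⊆ ball 0 (1 + δ) := hΩ ▸ union_subset (ball_subset_ball' (by simp [a1]))
    (ball_subset_ball' (by simp [a1]))
  obtain ⟨c1, c2⟩ := H Ω mΩ (hΩ ▸ (ball_subset_ball' (by simp [a1])).trans subset_union_left) h1
  have ho := ind mΩ (isBounded_ball.subset h1)
  obtain ⟨o, ho'⟩ : ∃ o, o = Ω.indicator fun _ => (1 : ℝ) := ⟨_, rfl⟩
  rw [← ho'] at ho c1 c2
  have o0 : ∀ y, 0 ≤ o y := ho' ▸ indicator_nonneg fun _ _ => zero_le_one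
  have o1 : ∀ y, o y ≤ 1 := fun y => by by_cases hy : y ∈ Ω <;> simp [ho', hy]
  obtain ⟨σ, hσ, h2⟩ := obst ho o0 c
  have hs := hσ.bd ho
  have c0 : 0 < c := lt_of_le_of_lt (integral_nonneg fun y => mul_nonneg (by positivity) (o0 y))
    (c1 (b 0) (by rw [b1]; norm_num))
  have h3 := le_c hs c0 (h2.mono fun y hy => hy.1)
  replace h2 := h2.mono fun y hy => hy.2
  obtain ⟨K, hK⟩ : ∃ K, K = {x | c ≤ P σ x} := ⟨_, rfl⟩
  have mK : ∀ x, x ∈ K ↔ c ≤ P σ x := fun x => by rw [hK]; rfl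
  have K1 : K ⊆ ball 0 (1 / 2) := fun x hx => mem_ball_zero_iff.2 (not_le.1 fun h => by
    linarith [c1 x h, (mK x).1 hx, P_mono hs ho (Eventually.of_forall fun y => (hσ.2 y).2) x])
  have Kc : IsClosed K := hK ▸ isClosed_le continuous_const hs.cont
  have Kk : IsCompact K := (isCompact_closedBall 0 _).of_isClosed_subset Kc (K1.trans ball_subset_closedBall)
  have K2 : ∃ x ∈ K, 4 * δ ≤ ‖x‖ := by
    by_contra hc
    push Not at hc
    have ib := ind (measurableSet_ball (x := (0 : E)) (ε := 4 * δ)) isBounded_ball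
    have h4 := P_mono (ho.lin ib 1 (-1)) hs (h2.mono fun y hy => by
      by_cases h : y ∈ K
      · rw [indicator_of_mem (mem_ball_zero_iff.2 (hc y h))]
        linarith [o1 y, (hσ.2 y).1]
      · rw [hy (not_le.1 (mt (mK y).2 h))]
        linarith [indicator_nonneg (s := ball (0 : E) (4 * δ)) (fun _ _ => zero_le_one (α := ℝ)) y]) 0
    rw [P_lin ho ib] at h4
    linarith [h3 0]
  have K3 : ∀ x ∈ K, ∀ y, 2 * δ * ‖x - y‖ ≤ ‖x‖ ^ 2 - ‖y‖ ^ 2 → y ∈ K := by
    intro x hx y hy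
    by_cases hxy : x = y
    · exact hxy ▸ hx
    have d0 : 0 < ‖x - y‖ := norm_pos_iff.2 (sub_ne_zero.2 hxy)
    obtain ⟨n, hn⟩ : ∃ n, n = ‖x - y‖⁻¹ • (x - y) := ⟨_, rfl⟩
    have n1 : ‖n‖ = 1 := by rw [hn, norm_smul, norm_inv, norm_norm, inv_mul_cancel₀ d0.ne']
    obtain ⟨s, hs'⟩ : ∃ s, s = (‖x‖ ^ 2 - ‖y‖ ^ 2) / (2 * ‖x - y‖) := ⟨_, rfl⟩
    have s1 : δ ≤ s := by rw [hs', le_div_iff₀ (by positivity)]; linarith
    have s2 : 2 * (⟪n, x⟫ - s) = ‖x - y‖ := by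
      have := norm_sub_sq_real x y
      rw [hn, hs', real_inner_smul_left, inner_sub_left, real_inner_self_eq_norm_sq, real_inner_comm]
      field_simp
      linarith
    have h4 := refl ho hσ h3 h2 n1 (s := s) (fun z hz => by
      by_cases h : z ∈ Ω
      · have h5 : ∀ a : E, ‖a‖ = δ → z ∈ ball a 1 → z - (2 * (⟪n, z⟫ - s)) • n ∈ ball a 1 := by
          intro a ha h5
          rw [mem_ball_iff_norm] at h5 ⊢
          refine lt_of_le_of_lt ((pow_le_pow_iff_left₀ (norm_nonneg _) (norm_nonneg _) two_ne_zero).1 ?_) h5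
          have h6 := real_inner_le_norm n a
          rw [sub_right_comm, norm_sub_sq_real (z - a), norm_smul, n1, inner_smul_right, inner_sub_left,
            real_inner_comm n z, real_inner_comm n a, mul_one, Real.norm_eq_abs, sq_abs]
          rw [n1, ha] at h6
          nlinarith [mul_nonneg (sub_nonneg.2 hz) (by linarith : 0 ≤ s - ⟪n, a⟫)]
        have h6 : z - (2 * (⟪n, z⟫ - s)) • n ∈ Ω := by
          rw [hΩ] at h ⊢
          exact h.imp (h5 _ a1) (h5 _ (by rw [norm_neg, a1]))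
        simp [ho', h, h6]
      · simpa [ho', h] using ho' ▸ o0 _) x (by linarith)
    rw [s2, hn, smul_inv_smul₀ d0.ne', sub_sub_cancel] at h4
    exact (mK y).2 (((mK x).1 hx).trans h4)
  have K4 : ball 0 (2 * δ) ⊆ K := fun y hy => by
    obtain ⟨x, hx, h⟩ := K2
    have h4 := mem_ball_zero_iff.1 hy
    refine K3 x hx y ?_
    nlinarith [norm_sub_le x y, norm_nonneg y, mul_le_mul_of_nonneg_left (norm_sub_le x y) δ0.le]
  have K5 : ∀ x ∈ K, ∀ τ ∈ Ico (0 : ℝ) 1, τ • x ∈ interior K := fun x hx τ hτ => by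
    rcases le_or_gt ‖x‖ (2 * δ) with h | h
    · refine interior_maximal K4 isOpen_ball (mem_ball_zero_iff.2 ?_)
      rw [norm_smul, Real.norm_of_nonneg hτ.1]
      nlinarith [hτ.1, hτ.2]
    · refine interior_maximal (t := {y | 2 * δ * ‖x - y‖ < ‖x‖ ^ 2 - ‖y‖ ^ 2})
        (fun y hy => K3 x hx y (le_of_lt hy)) (isOpen_lt (by fun_prop) (by fun_prop)) ?_
      rw [mem_ofPred_eq, show x - τ • x = (1 - τ) • x by module, norm_smul, norm_smul,
        Real.norm_of_nonneg hτ.1, Real.norm_of_nonneg (sub_nonneg.2 hτ.2.le)]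
      have h4 : 0 < (1 - τ) * ‖x‖ := mul_pos (sub_pos.2 hτ.2) (by linarith)
      nlinarith [mul_pos h4 (sub_pos.2 h), mul_nonneg h4.le (mul_nonneg hτ.1 (norm_nonneg x))]
  have hV : ∀ x ∈ interior K, P σ x = c := fun x hx => (h3 x).antisymm ((mK x).1 (interior_subset hx))
  have h4 : ∀ᵐ y, y ∈ K → σ y = 0 := by
    have i1 : IntegrableOn σ K := hs.int.integrableOn
    have h5 : ∀ τ ∈ Ioo (0 : ℝ) 1, ∫ y in K, σ y ≤ volume.real K - τ ^ 3 * volume.real K := by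
      intro τ hτ
      have h5 : τ • K ⊆ interior K := by
        rintro _ ⟨x, hx, rfl⟩
        exact K5 x hx τ ⟨hτ.1.le, hτ.2⟩
      have h6 := Kk.smul τ
      have h7 : volume.real (τ • K) = τ ^ 3 * volume.real K := by
        rw [Measure.real, Measure.addHaar_smul, ENNReal.toReal_mul, ENNReal.toReal_ofReal (abs_nonneg _),
          finrank_euclideanSpace_fin, abs_of_pos (pow_pos hτ.1 3), Measure.real]
      rw [← h7, ← measureReal_diff (h5.trans interior_subset) h6.measurableSet Kk.measure_lt_top.ne,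
        setIntegral_eq_of_subset_of_ae_diff_eq_zero Kk.nullMeasurableSet (diff_subset (t := τ • K))
          ((vanish hs (fun y => (hσ.2 y).1) isOpen_interior h6.isClosed h5 hV).mono fun y hy h =>
            hy (by_contra fun h' => h.2 ⟨h.1, h'⟩))]
      simpa using setIntegral_mono (hs.int.integrableOn (s := K \ τ • K)) (integrableOn_const
        ((measure_mono diff_subset).trans_lt Kk.measure_lt_top).ne) fun y => (hσ.2 y).2.trans (o1 y)
    have l : Tendsto (fun τ : ℝ => volume.real K - τ ^ 3 * volume.real K) (𝓝[<] 1)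
        (𝓝 (volume.real K - 1 ^ 3 * volume.real K)) :=
      (Continuous.tendsto (by fun_prop) 1).mono_left nhdsWithin_le_nhds
    have h6 := ge_of_tendsto l (mem_of_superset (Ioo_mem_nhdsLT one_pos) h5)
    exact (ae_restrict_iff' Kc.measurableSet).1 ((integral_eq_zero_iff_of_nonneg
      (fun y => (hσ.2 y).1) i1).1 (le_antisymm (by linarith) (integral_nonneg fun y => (hσ.2 y).1)))
  obtain ⟨x, hx, -⟩ := K2
  refine ⟨δ, K, interior K, c, δ0, δ1, Kk, isOpen_interior, interior_subset, ⟨x, hx⟩, K5, K1,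
    fun x hx => ?_⟩
  rw [← hΩ, ← hV x hx, P, ← integral_indicator (mΩ.diff Kc.measurableSet)]
  refine integral_congr_ae ?_
  filter_upwards [h2, h4] with y h5 h6
  by_cases hy : y ∈ K
  · simp [hy, h6 hy]
  · rw [h5 (not_le.1 (mt (mK y).2 hy)), ho']
    by_cases hy' : y ∈ Ω <;> simp [hy, hy', dist_eq_norm]

end Pool.Agent.H.MP_7dd24e_an
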